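import Mathlib
import Pool.Agent.H83.FunTop

set_option autoImplicit false

namespace Pool.Agent.Results.MP_43be50_gt.AllDiffer

open Set Filter Topology TopologicalSpace H83.FunTop

def Sp : Type := ℝ ⊕ {S : Set ℝ // S.Countable ∧ S.Infinite}

def pt (r : ℝ) : Sp := Sum.inl r
def lm (S : {S : Set ℝ // S.Countable ∧ S.Infinite}) : Sp := Sum.inr S

theorem pt_inj : Function.Injective pt := Sum.inl_injective

theorem cases (y : Sp) : (∃ r, y = pt r) ∨ ∃ S, y = lm S := by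
  rcases y with r | S
  exacts [Or.inl ⟨r, rfl⟩, Or.inr ⟨S, rfl⟩]

instance : TopologicalSpace Sp where
  IsOpen W := ∀ S, lm S ∈ W → (S.1 \ pt ⁻¹' W).Finite
  isOpen_univ := by simp
  isOpen_inter := fun V W hV hW S h => by
    rw [preimage_inter, diff_inter]; exact (hV S h.1).union (hW S h.2)
  isOpen_sUnion := fun T hT S ⟨W, hW, h⟩ => (hT W hW S h).subset
    (diff_subset_diff_right (preimage_mono (subset_sUnion_of_mem hW)))

theorem open_iff {W : Set Sp} : IsOpen W ↔ ∀ S, lm S ∈ W → (S.1 \ pt ⁻¹' W).Finite := Iff.rfl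

theorem closed_single (y : Sp) : IsClosed ({y} : Set Sp) :=
  ⟨fun S _ => ((finite_singleton y).preimage pt_inj.injOn).subset fun _ h => not_not.1 h.2⟩

theorem clopen_pt (r : ℝ) : IsClopen ({pt r} : Set Sp) :=
  ⟨closed_single _, fun _ h => by cases h⟩

theorem clopen_cof {W : Set Sp} (hW : IsClopen W) {S} (hS : lm S ∈ W) : Wᶜ.Finite := by
  have h1 : (pt ⁻¹' W).Infinite := fun h => S.2.2 (((hW.isOpen S hS).union h).subset
    (by rw [diff_union_self]; exact subset_union_left))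
  have h2 : (pt ⁻¹' Wᶜ).Finite := by
    by_contra h
    obtain ⟨A, hA, hAc, hAi⟩ := h1.exists_subset_countable_infinite
    obtain ⟨B, hB, hBc, hBi⟩ := Infinite.exists_subset_countable_infinite h
    let T : {S : Set ℝ // S.Countable ∧ S.Infinite} :=
      ⟨A ∪ B, hAc.union hBc, hAi.mono subset_union_left⟩
    by_cases hT : lm T ∈ W
    · exact hBi ((hW.isOpen T hT).subset fun x hx => ⟨Or.inr hx, hB hx⟩)
    · exact hAi ((hW.compl.isOpen T hT).subset fun x hx => ⟨Or.inl hx, fun h => h (hA hx)⟩)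
  refine (h2.image pt).subset fun y hy => ?_
  rcases cases y with ⟨r, rfl⟩ | ⟨T, rfl⟩
  · exact ⟨r, hy, rfl⟩
  · exact (T.2.2 (((hW.compl.isOpen T hy).union h2).subset
      (by rw [diff_union_self]; exact subset_union_left))).elim

theorem zcover (𝒰 : Set (Set Sp)) (h : 𝒰 ⊆ OZ Sp Bool) (hc : ⋃₀ 𝒰 = univ) :
    ∃ ℱ ⊆ 𝒰, ℱ.Finite ∧ ⋃₀ ℱ = univ := by
  have hall : ∀ y, ∃ W ∈ 𝒰, y ∈ W := fun y => (hc.symm ▸ mem_univ y : y ∈ ⋃₀ 𝒰)
  obtain ⟨W, hW, hS⟩ := hall (lm ⟨range ((↑) : ℕ → ℝ), countable_range _,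
    infinite_range_of_injective Nat.cast_injective⟩)
  obtain ⟨f, U, -, rfl⟩ := h hW
  have hf := clopen_cof ((isClopen_discrete U).preimage f.continuous) hS
  choose g hg hg' using hall
  refine ⟨insert _ (g '' (f ⁻¹' U)ᶜ), insert_subset hW (by rintro _ ⟨y, -, rfl⟩; exact hg y),
    (hf.image g).insert _, eq_univ_of_forall fun y => ?_⟩
  by_cases hy : y ∈ f ⁻¹' U
  · exact ⟨_, Or.inl rfl, hy⟩
  · exact ⟨_, Or.inr ⟨y, hy, rfl⟩, hg' y⟩

theorem zcompact : @IsCompact Sp (generateFrom (OZ Sp Bool)) univ := by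
  letI := generateFrom (OZ Sp Bool)
  refine isCompact_generateFrom rfl fun P hP hc => ?_
  obtain ⟨ℱ, h1, h2, h3⟩ := zcover P hP (univ_subset_iff.1 hc)
  exact ⟨ℱ, h1, h2, h3.ge⟩

def one : C(Sp, Bool) := ContinuousMap.const _ true

noncomputable def g (r : ℝ) : C(Sp, Bool) :=
  ⟨({pt r}ᶜ : Set Sp).boolIndicator, (continuous_boolIndicator_iff_isClopen _).2 (clopen_pt r).compl⟩

theorem g_eq {r : ℝ} {y : Sp} (h : y ≠ pt r) : g r y = true := (mem_iff_boolIndicator _ _).1 h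

theorem g_ne (r : ℝ) : g r ≠ one := fun h => by
  have : g r (pt r) = true := by rw [h]; rfl
  exact (mem_iff_boolIndicator _ _).2 this rfl

/-- the standard cover -/
def cov : Set (Set Sp) := {W | IsOpen W ∧ (pt ⁻¹' W).Countable}

theorem cov_univ : ⋃₀ cov = univ := eq_univ_of_forall fun y => by
  rcases cases y with ⟨r, rfl⟩ | ⟨T, rfl⟩
  · exact ⟨{pt r}, ⟨(clopen_pt r).isOpen,
      ((finite_singleton _).preimage pt_inj.injOn).countable⟩, rfl⟩
  · refine ⟨insert (lm T) (pt '' T.1), ⟨fun S hS => ?_, T.2.1.mono ?_⟩, Or.inl rfl⟩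
    · rcases hS with h | ⟨r, -, h⟩
      · cases h
        exact finite_empty.subset fun x hx => hx.2 (Or.inr ⟨x, hx.1, rfl⟩)
      · cases h
    · rintro x (h | ⟨r, hr, h⟩)
      · cases h
      · exact pt_inj h ▸ hr

theorem small {ℱ : Set (Set Sp)} (h : ℱ ⊆ cov) (hf : ℱ.Finite) :
    ∀ᶠ r in cocountable, pt r ∉ ⋃₀ ℱ := by
  refine mem_cocountable.2 ((hf.countable.biUnion fun W hW => (h hW).2).mono fun r hr => ?_)
  obtain ⟨W, hW, hr⟩ := not_not.1 hr
  exact mem_biUnion hW hr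

theorem not_open {t : TopologicalSpace C(Sp, Bool)} (h : Tendsto g cocountable (@nhds _ t one)) :
    ¬ IsOpen[t] {one} := fun ho => by
  haveI : (cocountable : Filter ℝ).NeBot := by
    refine neBot_iff.2 fun hb => ?_
    have : (∅ : Set ℝ) ∈ (cocountable : Filter ℝ) := hb ▸ mem_bot
    exact Cardinal.not_countable_real (by simpa using mem_cocountable.1 this)
  obtain ⟨r, hr⟩ := (h.eventually (ho.mem_nhds rfl)).exists
  exact g_ne r hr

theorem fam_tendsto {𝒯 : Set (Set (Set Sp))}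
    (h1 : ∀ H ∈ 𝒯, ∀ W ∈ H, ∀ V, IsOpen V → W ⊆ V → V ∈ H)
    (h2 : ∀ H ∈ 𝒯, univ ∈ H → ∃ ℱ ⊆ cov, ℱ.Finite ∧ ⋃₀ ℱ ∈ H) :
    Tendsto g cocountable (@nhds _ (famOpen Sp Bool 𝒯) one) := by
  refine tendsto_nhds_generateFrom_iff.2 ?_
  rintro _ ⟨H, hH, U, hU, rfl⟩ hm
  by_cases ht : true ∈ U
  · obtain ⟨ℱ, a1, a2, a3⟩ := h2 H hH (h1 H hH _ hm _ isOpen_univ (subset_univ _))
    refine mem_of_superset (small a1 a2) fun r hr => h1 H hH _ a3 _ (hU.preimage (g r).continuous)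
      fun y hy => ?_
    rw [mem_preimage, g_eq (fun e => hr (e ▸ hy))]; exact ht
  · exact Eventually.of_forall fun r => h1 H hH _ hm _ (hU.preimage (g r).continuous)
      fun y hy => (ht hy).elim

theorem one_eq : ({one} : Set C(Sp, Bool)) = {f : C(Sp, Bool) | f ⁻¹' {true} ∈ ({univ} : Set (Set Sp))} := by
  ext f
  simp only [mem_singleton_iff, mem_setOf_eq, eq_univ_iff_forall, mem_preimage]
  exact ⟨fun h y => h ▸ rfl, fun h => ContinuousMap.ext h⟩

theorem result : ∃ (Y Z : Type) (_ : TopologicalSpace Y) (_ : TopologicalSpace Z),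
    T1Space Y ∧ DiscreteTopology Z ∧
    setOpen Y Z {K | @IsCompact Y (generateFrom (OZ Y Z)) K} ≠ setOpen Y Z {K | IsCompact K} ∧
    famOpen Y Z (zScott Y Z) ≠ famOpen Y Z (scott Y) ∧
    famOpen Y Z (zStrongScott Y Z) ≠ famOpen Y Z (strongScott Y) := by
  have hup : ∀ W ∈ ({univ} : Set (Set Sp)) ∩ OZ Sp Bool, ∀ V, IsOpen V → W ⊆ V →
      V ∈ ({univ} : Set (Set Sp)) := fun W hW V _ h => univ_subset_iff.1 (hW.1 ▸ h)
  have ho : ∀ W ∈ ({univ} : Set (Set Sp)), IsOpen W := fun W hW => hW ▸ isOpen_univ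
  refine ⟨Sp, Bool, inferInstance, inferInstance, ⟨closed_single⟩, inferInstance,
    fun e => not_open (t := setOpen Sp Bool {K | IsCompact K}) ?_ ?_,
    fun e => not_open (t := famOpen Sp Bool (scott Sp)) ?_ ?_,
    fun e => not_open (t := famOpen Sp Bool (strongScott Sp)) ?_ ?_⟩
  · refine tendsto_nhds_generateFrom_iff.2 ?_
    rintro _ ⟨K, hK, U, hU, rfl⟩ hm
    obtain ⟨ℱ, a1, a2, a3⟩ := IsCompact.elim_finite_subcover_image (b := cov) (c := fun W => W) hK
      (fun W hW => hW.1) (by rw [← sUnion_eq_biUnion, cov_univ]; exact subset_univ _)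
    refine mem_of_superset (small a1 a2) fun r hr => ?_
    rintro _ ⟨y, hy, rfl⟩
    rw [g_eq (fun e => hr (by rw [sUnion_eq_biUnion, ← e]; exact a3 hy))]
    exact hm ⟨y, hy, rfl⟩
  · rw [← e]
    refine isOpen_generateFrom_of_mem ⟨univ, zcompact, {true}, isOpen_discrete _, ?_⟩
    rw [one_eq]; ext f; simp [eq_univ_iff_forall, subset_def]
  · exact fam_tendsto (fun H hH => hH.2.1) fun H hH hu =>
      hH.2.2 cov (fun W hW => hW.1) (cov_univ ▸ hu)
  · rw [← e]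
    exact isOpen_generateFrom_of_mem ⟨{univ}, ⟨ho, hup, zcover⟩, {true}, isOpen_discrete _, one_eq⟩
  · exact fam_tendsto (fun H hH => hH.2.1) fun H hH _ => hH.2.2 cov (fun W hW => hW.1) cov_univ
  · rw [← e]
    exact isOpen_generateFrom_of_mem ⟨{univ}, ⟨ho, hup, zcover⟩, {true}, isOpen_discrete _, one_eq⟩

end Pool.Agent.Results.MP_43be50_gt.AllDiffer
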